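import Pool.Agent.Helper28.LV.StN

/-!
# Project LV, module CA3: Liouville's theorem with polynomial growth
-/

set_option autoImplicit false

open Pool.Agent.Helper28.WK Pool.Agent.Helper28.LV Pool.Agent.Helper14.WK
open Filter Topology Metric

namespace Pool.Agent.Helper4.LV

private lemma ext_diff (n : ℕ) (f : ℂ → ℂ) (C : ℝ) (hf : DifferentiableOn ℂ f {0}ᶜ)
    (hb : ∀ z : ℂ, z ≠ 0 → ‖f z‖ ≤ C * (1 + ‖z‖) ^ n) :
    Differentiable ℂ (Function.update f 0 (limUnder (𝓝[≠] (0 : ℂ)) f)) := by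
  have hd : ∀ z : ℂ, z ≠ 0 → DifferentiableAt ℂ f z := fun z hz =>
    (hf z hz).differentiableAt (isOpen_compl_singleton.mem_nhds hz)
  intro z
  by_cases hz : z = 0
  · subst hz
    have h1 : BddAbove (norm ∘ f '' (ball (0 : ℂ) 1 \ {0})) := by
      refine ⟨|C| * 2 ^ n, ?_⟩
      rintro _ ⟨w, ⟨hw1, hw2⟩, rfl⟩
      have hw3 : ‖w‖ < 1 := by simpa using hw1
      calc ‖f w‖ ≤ C * (1 + ‖w‖) ^ n := hb w (by simpa using hw2)
        _ ≤ |C| * (1 + ‖w‖) ^ n :=
            mul_le_mul_of_nonneg_right (le_abs_self C) (by positivity)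
        _ ≤ |C| * 2 ^ n := by
            apply mul_le_mul_of_nonneg_left _ (abs_nonneg C)
            exact pow_le_pow_left₀ (by positivity) (by linarith) n
    have h2 := Complex.differentiableOn_update_limUnder_of_bddAbove
      (f := f) (s := ball (0 : ℂ) 1) (c := 0) (ball_mem_nhds _ one_pos)
      (fun w hw => (hd w (by simpa using hw.2)).differentiableWithinAt) h1
    exact h2.differentiableAt (ball_mem_nhds _ one_pos)
  · refine (hd z hz).congr_of_eventuallyEq ?_
    filter_upwards [isOpen_compl_singleton.mem_nhds (show z ∈ ({0} : Set ℂ)ᶜ from hz)] with w hw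
    exact Function.update_of_ne hw _ _

theorem hCA3 : CA3 := by
  intro n f C hf hb z hz
  set g : ℂ → ℂ := Function.update f 0 (limUnder (𝓝[≠] (0 : ℂ)) f) with hg
  have hgd : Differentiable ℂ g := ext_diff n f C hf hb
  have hfg : ∀ w : ℂ, w ≠ 0 → g w = f w := fun w hw => Function.update_of_ne hw _ _
  have h1 : iteratedDeriv (n + 1) f z = iteratedDeriv (n + 1) g z := by
    apply Filter.EventuallyEq.iteratedDeriv_eq
    filter_upwards [isOpen_compl_singleton.mem_nhds (show z ∈ ({0} : Set ℂ)ᶜ from hz)] with w hw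
    exact (hfg w hw).symm
  rw [h1]
  have h2 : ∀ r : ℝ, 1 + ‖z‖ < r →
      ‖iteratedDeriv (n + 1) g z‖ ≤ ((n + 1).factorial * (|C| * 2 ^ n)) / r := by
    intro r hr
    have hr0 : 0 < r := by
      have := norm_nonneg z
      linarith
    have h3 : ∀ w ∈ sphere z r, ‖g w‖ ≤ |C| * (2 * r) ^ n := by
      intro w hw
      have hw1 : ‖w - z‖ = r := by simpa [dist_eq_norm] using hw
      have hw0 : w ≠ 0 := by
        rintro rfl
        rw [zero_sub, norm_neg] at hw1
        linarith
      have hw2 : ‖w‖ ≤ ‖z‖ + r := by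
        calc ‖w‖ = ‖(w - z) + z‖ := by rw [sub_add_cancel]
          _ ≤ ‖w - z‖ + ‖z‖ := norm_add_le _ _
          _ = ‖z‖ + r := by rw [hw1, add_comm]
      rw [hfg w hw0]
      calc ‖f w‖ ≤ C * (1 + ‖w‖) ^ n := hb w hw0
        _ ≤ |C| * (1 + ‖w‖) ^ n :=
            mul_le_mul_of_nonneg_right (le_abs_self C) (by positivity)
        _ ≤ |C| * (2 * r) ^ n := by
            apply mul_le_mul_of_nonneg_left _ (abs_nonneg C)
            exact pow_le_pow_left₀ (by positivity) (by linarith) n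
    have h4 := Complex.norm_iteratedDeriv_le_of_forall_mem_sphere_norm_le (n + 1) hr0
      (hgd.diffContOnCl (s := ball z r)) h3
    refine h4.trans (le_of_eq ?_)
    rw [mul_pow, pow_succ r n]
    field_simp
  have h5 : Tendsto (fun r : ℝ => ((n + 1).factorial * (|C| * 2 ^ n)) / r) atTop (𝓝 0) :=
    tendsto_const_nhds.div_atTop tendsto_id
  have h6 : ‖iteratedDeriv (n + 1) g z‖ ≤ 0 := by
    refine ge_of_tendsto h5 ?_
    filter_upwards [eventually_gt_atTop (1 + ‖z‖)] with r hr
    exact h2 r hr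
  exact norm_le_zero_iff.1 h6

end Pool.Agent.Helper4.LV
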